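import Pool.Agent.K1H79.GE.StmA
import Pool.Agent.K1H79.QR.Cnt
import Pool.Agent.H510R2.Div

/-! # Many squarefree products of good primes (piece W7 of helper79's project GE) -/

set_option autoImplicit false

namespace Pool.Agent.K1H26.GE

open NumberField Pool.Agent.K1H79.GE
open scoped Classical

variable (F : Type) [Field F] [NumberField F]

instance finN (m : ℕ) : Finite {𝔞 : Ideal (𝓞 F) // Ideal.absNorm 𝔞 = m} :=
  (Ideal.finite_setOfPred_absNorm_eq (S := 𝓞 F) m).to_subtype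

theorem rr_nonneg (m : ℕ) : 0 ≤ rr F m := Nat.cast_nonneg _
theorem gg_nonneg (m : ℕ) : 0 ≤ gg F m := Nat.cast_nonneg _

theorem ee_nonneg (m : ℕ) : 0 ≤ ee F m :=
  Finset.sum_nonneg fun d _ => mul_nonneg (gg_nonneg F d) (gg_nonneg F _)

theorem gg_le_rr (m : ℕ) : gg F m ≤ rr F m := by
  unfold gg rr
  apply Nat.cast_le.mpr
  refine Nat.card_le_card_of_injective
    (fun 𝔤 : {𝔤 : Ideal (𝓞 F) // GI F 𝔤 ∧ Ideal.absNorm 𝔤 = m} =>
      (⟨𝔤.1, 𝔤.2.2⟩ : {𝔞 : Ideal (𝓞 F) // Ideal.absNorm 𝔞 = m})) ?_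
  intro a b h
  simp only [Subtype.mk.injEq] at h
  exact Subtype.ext h

theorem abs_aa_le {ψ : Ideal (𝓞 F) →*₀ ℝ} (hψ : IsX3 F ψ) (m : ℕ) : |aa F ψ m| ≤ rr F m := by
  have : Fintype {𝔞 : Ideal (𝓞 F) // Ideal.absNorm 𝔞 = m} := Fintype.ofFinite _
  unfold aa rr
  rw [finsum_eq_sum_of_fintype]
  refine (Finset.abs_sum_le_sum_abs _ _).trans ?_
  rw [Nat.card_eq_fintype_card]
  refine (Finset.sum_le_card_nsmul _ _ 1 fun a _ => ?_).trans (by simp)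
  rcases hψ.1 a with h | h | h <;> rw [h] <;> simp

theorem aa_zero (ψ : Ideal (𝓞 F) →*₀ ℝ) : aa F ψ 0 = 0 := by
  unfold aa
  apply finsum_eq_zero_of_forall_eq_zero
  rintro ⟨𝔞, h⟩
  have : 𝔞 = 0 := by
    rw [Ideal.absNorm_eq_zero_iff] at h
    exact h
  simp only [this, map_zero]

theorem ee_zero : ee F 0 = 0 := by simp [ee]

theorem hasSum_aa (ψ : Ideal (𝓞 F) →*₀ ℝ) (s v : ℂ)
    (h : HasSum (fun 𝔞 : Ideal (𝓞 F) =>
        ((ψ 𝔞 : ℝ) : ℂ) * ((Ideal.absNorm 𝔞 : ℕ) : ℂ) ^ (-s)) v) :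
    HasSum (fun m : ℕ => (aa F ψ m : ℂ) * (m : ℂ) ^ (-s)) v := by
  have h' := (Equiv.sigmaFiberEquiv (fun 𝔞 : Ideal (𝓞 F) => Ideal.absNorm 𝔞)).hasSum_iff.mpr h
  refine h'.sigma fun m => ?_
  have : Fintype {𝔞 : Ideal (𝓞 F) // Ideal.absNorm 𝔞 = m} := Fintype.ofFinite _
  have h2 := hasSum_fintype (fun c : {𝔞 : Ideal (𝓞 F) // Ideal.absNorm 𝔞 = m} =>
    ((ψ c.1 : ℝ) : ℂ) * (m : ℂ) ^ (-s))
  have h3 : ∑ c : {𝔞 : Ideal (𝓞 F) // Ideal.absNorm 𝔞 = m}, ((ψ c.1 : ℝ) : ℂ) * (m : ℂ) ^ (-s) =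
      (aa F ψ m : ℂ) * (m : ℂ) ^ (-s) := by
    unfold aa
    rw [finsum_eq_sum_of_fintype, ← Finset.sum_mul]
    push_cast
    rfl
  rw [h3] at h2
  have h4 : (fun c : {𝔞 : Ideal (𝓞 F) // Ideal.absNorm 𝔞 = m} =>
      ((fun 𝔞 : Ideal (𝓞 F) => ((ψ 𝔞 : ℝ) : ℂ) * ((Ideal.absNorm 𝔞 : ℕ) : ℂ) ^ (-s)) ∘
        (Equiv.sigmaFiberEquiv (fun 𝔞 : Ideal (𝓞 F) => Ideal.absNorm 𝔞))) ⟨m, c⟩) =
      (fun c : {𝔞 : Ideal (𝓞 F) // Ideal.absNorm 𝔞 = m} => ((ψ c.1 : ℝ) : ℂ) * (m : ℂ) ^ (-s)) := by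
    funext c
    simp only [Function.comp_apply, Equiv.sigmaFiberEquiv, Equiv.coe_fn_mk]
    rw [c.2]
  rw [h4]
  exact h2

theorem rr_pow {f : ℕ} (hf : Module.finrank ℚ F = f) {k : ℕ} (hk : 1 ≤ k) :
    1 ≤ rr F (k ^ f) := by
  unfold rr
  have hne : Nonempty {𝔞 : Ideal (𝓞 F) // Ideal.absNorm 𝔞 = k ^ f} := by
    refine ⟨⟨Ideal.span {((k : ℕ) : 𝓞 F)}, ?_⟩⟩
    rw [Ideal.absNorm_span_singleton]
    have h1 : ((k : ℕ) : 𝓞 F) = algebraMap ℤ (𝓞 F) (k : ℤ) := by simp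
    rw [h1, Algebra.norm_algebraMap, Int.natAbs_pow, Int.natAbs_natCast,
      RingOfIntegers.rank, hf]
  have h2 : 0 < Nat.card {𝔞 : Ideal (𝓞 F) // Ideal.absNorm 𝔞 = k ^ f} := Nat.card_pos
  exact_mod_cast h2

theorem ee_le {C ε C' : ℝ} (hC : 0 < C) (hε : 0 < ε)
    (h : ∀ m : ℕ, 1 ≤ m → rr F m ≤ C * (m : ℝ) ^ ε)
    (hd : ∀ n : ℕ, 1 ≤ n → (n.divisors.card : ℝ) ≤ C' * (n : ℝ) ^ ε) (m : ℕ) (hm : 1 ≤ m) :
    ee F m ≤ C' * C ^ 2 * (m : ℝ) ^ (2 * ε) := by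
  have hm0 : (0 : ℝ) < m := by exact_mod_cast hm
  have key : ∀ d ∈ m.divisors, gg F d * gg F (m / d) ≤ C ^ 2 * (m : ℝ) ^ ε := by
    intro d hd
    have hdm := Nat.dvd_of_mem_divisors hd
    have hd1 : 1 ≤ d := Nat.pos_of_mem_divisors hd
    have hd2 : 1 ≤ m / d := Nat.div_pos (Nat.le_of_dvd (by omega) hdm) hd1
    have h1 := (gg_le_rr F d).trans (h d hd1)
    have h2 := (gg_le_rr F (m / d)).trans (h (m / d) hd2)
    refine (mul_le_mul h1 h2 (gg_nonneg F _) (by positivity)).trans (le_of_eq ?_)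
    have h3 : (d : ℝ) ^ ε * ((m / d : ℕ) : ℝ) ^ ε = (m : ℝ) ^ ε := by
      rw [← Real.mul_rpow (Nat.cast_nonneg _) (Nat.cast_nonneg _)]
      congr 1
      exact_mod_cast Nat.mul_div_cancel' hdm
    linear_combination C ^ 2 * h3
  unfold ee
  refine (Finset.sum_le_card_nsmul _ _ _ key).trans ?_
  rw [nsmul_eq_mul]
  have h4 := mul_le_mul_of_nonneg_right (hd m hm) (show 0 ≤ C ^ 2 * (m : ℝ) ^ ε by positivity)
  refine h4.trans (le_of_eq ?_)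
  rw [two_mul, Real.rpow_add hm0]
  ring

theorem sum_ee_le (N : ℕ) :
    ∑ m ∈ Finset.Icc 1 N, ee F m ≤ (∑ m ∈ Finset.Icc 1 N, gg F m) ^ 2 := by
  have h1 : ∀ m ∈ Finset.Icc 1 N, ee F m =
      ∑ t ∈ (Finset.Icc 1 N ×ˢ Finset.Icc 1 N).filter (fun t => t.1 * t.2 = m),
        gg F t.1 * gg F t.2 := by
    intro m hm
    rw [Finset.mem_Icc] at hm
    unfold ee
    refine Finset.sum_bij (fun d _ => (d, m / d)) ?_ ?_ ?_ ?_
    · intro d hd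
      have hdm := Nat.dvd_of_mem_divisors hd
      have hd1 : 1 ≤ d := Nat.pos_of_mem_divisors hd
      have hd2 : 1 ≤ m / d := Nat.div_pos (Nat.le_of_dvd (by omega) hdm) hd1
      rw [Finset.mem_filter, Finset.mem_product, Finset.mem_Icc, Finset.mem_Icc]
      exact ⟨⟨⟨hd1, (Nat.le_of_dvd (by omega) hdm).trans hm.2⟩,
        ⟨hd2, (Nat.div_le_self _ _).trans hm.2⟩⟩, Nat.mul_div_cancel' hdm⟩
    · intro a _ b _ hab
      exact (Prod.mk.inj hab).1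
    · rintro ⟨a, b⟩ hab
      rw [Finset.mem_filter, Finset.mem_product, Finset.mem_Icc, Finset.mem_Icc] at hab
      obtain ⟨⟨⟨ha, -⟩, ⟨hb, -⟩⟩, hab⟩ := hab
      simp only at hab ha hb
      refine ⟨a, ?_, ?_⟩
      · rw [Nat.mem_divisors]
        exact ⟨⟨b, hab.symm⟩, by omega⟩
      · rw [← hab, Nat.mul_div_cancel_left _ (by omega)]
    · intro d _
      rfl
  rw [Finset.sum_congr rfl h1, sq, Finset.sum_mul_sum, ← Finset.sum_product']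
  rw [← Finset.sum_biUnion]
  · apply Finset.sum_le_sum_of_subset_of_nonneg
    · intro t ht
      rw [Finset.mem_biUnion] at ht
      obtain ⟨m, -, ht⟩ := ht
      exact (Finset.mem_filter.mp ht).1
    · intro t _ _
      exact mul_nonneg (gg_nonneg F _) (gg_nonneg F _)
  · intro a _ b _ hab
    rw [Function.onFun, Finset.disjoint_left]
    intro t ht ht'
    exact hab ((Finset.mem_filter.mp ht).2.symm.trans (Finset.mem_filter.mp ht').2)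

theorem gg_prime {m : ℕ} (hm : gg F m ≠ 0) {p : ℕ} (hp : p.Prime) (hpm : p ∣ m) :
    p = 3 ∨ Gp F p := by
  have h0 : Nat.card {𝔤 : Ideal (𝓞 F) // GI F 𝔤 ∧ Ideal.absNorm 𝔤 = m} ≠ 0 := by
    intro h
    apply hm
    unfold gg
    exact_mod_cast h
  obtain ⟨⟨𝔤, ⟨hg0, hg⟩, hgm⟩⟩ : Nonempty {𝔤 : Ideal (𝓞 F) // GI F 𝔤 ∧ Ideal.absNorm 𝔤 = m} :=
    (Nat.card_ne_zero.mp h0).1
  obtain ⟨P, hPm, hPp, hPd⟩ := Ideal.exists_isMaximal_dvd_of_dvd_absNorm' hp 𝔤 (hgm ▸ hpm)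
  have hpP : ((p : ℕ) : 𝓞 F) ∈ P := by
    have h1 : (p : ℤ) ∈ P.under ℤ := by
      rw [hPp]
      exact Ideal.mem_span_singleton_self _
    rw [Ideal.mem_comap] at h1
    simpa using h1
  obtain ⟨q, n, hn, hqP, hq, hN⟩ := Ideal.exists_prime_and_absNorm_eq_pow P
  have hqp : q = p := by
    by_contra hne
    have hco : IsCoprime (q : ℤ) (p : ℤ) := by
      rw [Nat.isCoprime_iff_coprime]
      exact (Nat.coprime_primes hq hp).mpr hne
    obtain ⟨a, b, hab⟩ := hco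
    apply hPm.ne_top
    rw [Ideal.eq_top_iff_one]
    have h2 : ((a * q + b * p : ℤ) : 𝓞 F) ∈ P := by
      push_cast
      exact P.add_mem (P.mul_mem_left _ hqP) (P.mul_mem_left _ hpP)
    rw [hab] at h2
    simpa using h2
  subst hqp
  have h3 := hg P hPm.isPrime hPd
  by_cases h30 : Ideal.absNorm P % 3 = 0
  · left
    have h4 : 3 ∣ q ^ n := by
      rw [← hN]
      exact Nat.dvd_of_mod_eq_zero h30
    exact ((Nat.prime_dvd_prime_iff_eq Nat.prime_three hq).mp (Nat.prime_three.dvd_of_dvd_pow h4)).symm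
  · right
    exact ⟨hq, P, hPm.isPrime, hqP, by omega⟩

/-- the bound for the L-functions (copy of `S_LB`) -/
def LB : Prop := ∀ f : ℕ, ∃ C A : ℝ, 0 < C ∧ 0 < A ∧ ∀ (F : Type) [Field F] [NumberField F],
  Module.finrank ℚ F = f → NoOm F → ∃ ψ : Ideal (𝓞 F) →*₀ ℝ, IsX3 F ψ ∧
    ∃ L : ℂ → ℂ, Differentiable ℂ L ∧
      (∀ s : ℂ, 1 < s.re → HasSum (fun 𝔞 : Ideal (𝓞 F) =>
        ((ψ 𝔞 : ℝ) : ℂ) * ((Ideal.absNorm 𝔞 : ℕ) : ℂ) ^ (-s)) (L s)) ∧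
      ∀ s : ℂ, ‖s - 2‖ ≤ 2 → ‖L s‖ ≤ C * |(discr F : ℝ)| ^ A

/-- the number of ideals of given norm (copy of `S_RM`) -/
def RM : Prop := ∀ (d : ℕ) (ε : ℝ), 0 < ε → ∃ C : ℝ, 0 < C ∧
  ∀ (K : Type) [Field K] [NumberField K], Module.finrank ℚ K = d → ∀ m : ℕ, 1 ≤ m →
    (Nat.card {J : Ideal (𝓞 K) // Ideal.absNorm J = m} : ℝ) ≤ C * (m : ℝ) ^ ε

/-- the conclusion (copy of `S_PRIM`) -/
def PRIM : Prop := ∀ f : ℕ, 1 ≤ f → ∃ c C : ℝ, 0 < c ∧ 0 < C ∧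
  ∀ (F : Type) [Field F] [NumberField F],
  Module.finrank ℚ F = f → NoOm F → ∀ X : ℝ, C * |(discr F : ℝ)| ^ C ≤ X →
    ∃ M : Finset ℕ, (∀ m ∈ M, Squarefree m ∧ (m : ℝ) ≤ X ∧ ∀ p : ℕ, p.Prime → p ∣ m → Gp F p) ∧
      X ^ c ≤ (M.card : ℝ)

/-- the counting part: from `X ^ c ≤ ∑ ee` to many squarefree numbers -/
theorem count {c C4 X : ℝ} (hc : 0 < c) (hC4 : 0 < C4) {k : ℕ} (hk : 1 ≤ k)
    (hkc : (1 / 2 ^ k : ℝ) ≤ c / 8)
    (h4 : ∀ m : ℕ, 1 ≤ m → rr F m ≤ C4 * (m : ℝ) ^ (c / 8))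
    (hX1 : 1 ≤ X) (hX2 : C4 ≤ X ^ (c / 8)) (hX3 : 2 ≤ X ^ (c / (16 * k)))
    (hS : X ^ c ≤ ∑ m ∈ Finset.Icc 1 ⌊X⌋₊, ee F m) :
    ∃ M : Finset ℕ, (∀ m ∈ M, Squarefree m ∧ (m : ℝ) ≤ X ∧ ∀ p : ℕ, p.Prime → p ∣ m → Gp F p) ∧
      X ^ (c / (16 * k)) ≤ (M.card : ℝ) := by
  have hX0 : 0 < X := by linarith
  have hk0 : (0 : ℝ) < k := by exact_mod_cast hk
  obtain ⟨N, hN⟩ : ∃ N : ℕ, N = ⌊X⌋₊ := ⟨_, rfl⟩
  have hNX : (N : ℝ) ≤ X := hN ▸ Nat.floor_le hX0.le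
  have hN1 : 1 ≤ N := by
    rw [hN]
    exact Nat.le_floor (by simpa using hX1)
  rw [← hN] at hS
  -- the set of values
  obtain ⟨AN, hAN⟩ : ∃ AN : Finset ℕ, AN = (Finset.Icc 1 N).filter fun m => gg F m ≠ 0 := ⟨_, rfl⟩
  have s1 : ∑ m ∈ Finset.Icc 1 N, gg F m ≤ (AN.card : ℝ) * (C4 * X ^ (c / 8)) := by
    rw [← Finset.sum_filter_ne_zero, ← hAN, ← nsmul_eq_mul]
    apply Finset.sum_le_card_nsmul
    intro m hm
    rw [hAN, Finset.mem_filter, Finset.mem_Icc] at hm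
    refine (gg_le_rr F m).trans ((h4 m hm.1.1).trans ?_)
    apply mul_le_mul_of_nonneg_left _ hC4.le
    apply Real.rpow_le_rpow (Nat.cast_nonneg _) _ (by positivity)
    exact le_trans (by exact_mod_cast hm.1.2) hNX
  have s1n : 0 ≤ ∑ m ∈ Finset.Icc 1 N, gg F m := Finset.sum_nonneg fun m _ => gg_nonneg F m
  have s2 : X ^ (c / 2) ≤ (AN.card : ℝ) * (C4 * X ^ (c / 8)) := by
    have h5 : (X ^ (c / 2)) ^ 2 ≤ (∑ m ∈ Finset.Icc 1 N, gg F m) ^ 2 := by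
      refine le_trans (le_of_eq ?_) (hS.trans (sum_ee_le F N))
      rw [← Real.rpow_natCast, ← Real.rpow_mul hX0.le]
      congr 1
      push_cast
      ring
    exact (le_of_sq_le_sq h5 s1n).trans s1
  have s3 : X ^ (c / 4) ≤ (AN.card : ℝ) := by
    have h6 : (AN.card : ℝ) * (C4 * X ^ (c / 8)) ≤ (AN.card : ℝ) * X ^ (c / 4) := by
      apply mul_le_mul_of_nonneg_left _ (Nat.cast_nonneg _)
      have h7 : X ^ (c / 4) = X ^ (c / 8) * X ^ (c / 8) := by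
        rw [← Real.rpow_add hX0]
        congr 1
        ring
      rw [h7]
      exact mul_le_mul_of_nonneg_right hX2 (by positivity)
    have h8 := s2.trans h6
    have h9 : X ^ (c / 2) = X ^ (c / 4) * X ^ (c / 4) := by
      rw [← Real.rpow_add hX0]
      congr 1
      ring
    rw [h9] at h8
    exact le_of_mul_le_mul_right h8 (by positivity)
  -- inclusion in the numbers composed of the primes of `E`
  obtain ⟨E, hE⟩ : ∃ E : Finset ℕ, E = (Finset.range (N + 1)).filter fun p => p = 3 ∨ Gp F p :=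
    ⟨_, rfl⟩
  have s4 : AN ⊆ Pool.Agent.K1H79.QR.Cc E N := by
    intro m hm
    rw [hAN, Finset.mem_filter, Finset.mem_Icc] at hm
    rw [Pool.Agent.K1H79.QR.mem_Cc]
    refine ⟨hm.1.1, hm.1.2, fun p hp hpm => ?_⟩
    rw [hE, Finset.mem_filter, Finset.mem_range]
    exact ⟨Nat.lt_succ_of_le ((Nat.le_of_dvd (by omega) hpm).trans hm.1.2), gg_prime F hm.2 hp hpm⟩
  have s5 := Pool.Agent.K1H79.QR.sq_iter E k N hN1
  obtain ⟨u, hu⟩ : ∃ u : ℕ, u = (Pool.Agent.K1H79.QR.Ms E N).card := ⟨_, rfl⟩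
  rw [← hu] at s5
  have s6 : X ^ (c / 8) ≤ (u : ℝ) ^ k := by
    have h1 : (N : ℝ) ^ (1 / 2 ^ k : ℝ) ≤ X ^ (c / 8) := by
      calc (N : ℝ) ^ (1 / 2 ^ k : ℝ) ≤ X ^ (1 / 2 ^ k : ℝ) :=
            Real.rpow_le_rpow (Nat.cast_nonneg _) hNX (by positivity)
        _ ≤ X ^ (c / 8) := Real.rpow_le_rpow_of_exponent_le hX1 hkc
    have h2 : X ^ (c / 4) ≤ (u : ℝ) ^ k * X ^ (c / 8) :=
      s3.trans ((Nat.cast_le.mpr (Finset.card_le_card s4)).trans (s5.trans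
        (mul_le_mul_of_nonneg_left h1 (by positivity))))
    have h3 : X ^ (c / 4) = X ^ (c / 8) * X ^ (c / 8) := by
      rw [← Real.rpow_add hX0]
      congr 1
      ring
    rw [h3] at h2
    exact le_of_mul_le_mul_right h2 (by positivity)
  have s7 : X ^ (c / (8 * k)) ≤ (u : ℝ) := by
    have h1 : (X ^ (c / (8 * k))) ^ k ≤ (u : ℝ) ^ k := by
      refine le_trans (le_of_eq ?_) s6
      rw [← Real.rpow_natCast, ← Real.rpow_mul hX0.le]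
      congr 1
      field_simp
    exact le_of_pow_le_pow_left₀ (by omega) (Nat.cast_nonneg _) h1
  have s8 := Pool.Agent.K1H79.QR.coprime_step (Pool.Agent.K1H79.QR.Ms E N) (P := Gp F) (T := 3)
    (z := N) (by norm_num) (fun a ha => by
      rw [Pool.Agent.K1H79.QR.mem_Ms] at ha
      refine ⟨ha.1, ha.2.1, ha.2.2.1, fun p hp hpa h3 => ?_⟩
      have h := ha.2.2.2 p hp hpa
      rw [hE, Finset.mem_filter] at h
      rcases h.2 with rfl | h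
      · exact absurd (dvd_refl 3) h3
      · exact h)
  have s9 : (Nat.divisors 3).card = 2 := by decide
  rw [← hu, s9] at s8
  refine ⟨Pool.Agent.K1H79.QR.Bs (Gp F) 3 N, fun m hm => ?_, ?_⟩
  · rw [Pool.Agent.K1H79.QR.mem_Bs] at hm
    exact ⟨hm.2.2.1, le_trans (by exact_mod_cast hm.2.1) hNX, fun p hp hpm => (hm.2.2.2 p hp hpm).2⟩
  · have h1 : (u : ℝ) ≤ 2 * ((Pool.Agent.K1H79.QR.Bs (Gp F) 3 N).card : ℝ) := by exact_mod_cast s8
    have h2 : X ^ (c / (8 * k)) = X ^ (c / (16 * k)) * X ^ (c / (16 * k)) := by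
      rw [← Real.rpow_add hX0]
      congr 1
      field_simp
      ring
    have h3 : X ^ (c / (16 * k)) * X ^ (c / (16 * k)) ≤
        ((Pool.Agent.K1H79.QR.Bs (Gp F) 3 N).card : ℝ) * X ^ (c / (16 * k)) := by
      rw [← h2]
      refine s7.trans (h1.trans ?_)
      rw [mul_comm]
      exact mul_le_mul_of_nonneg_left hX3 (Nat.cast_nonneg _)
    exact le_of_mul_le_mul_right h3 (by positivity)

theorem core (hconv : S_CONV) (hTA : S_TA) (hLB : LB) (hRM : RM) : PRIM := by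
  intro f hf
  obtain ⟨C1, hC1, h1⟩ := hRM f (1 / 32) (by norm_num)
  obtain ⟨C5, hC5, hd⟩ := Pool.Agent.H510R2.divisor_bound (1 / 32) (by norm_num)
  obtain ⟨c, C2, hc, hC2, hT⟩ := hTA f hf (C1 + C5 * C1 ^ 2) (by positivity)
  obtain ⟨C3, A, hC3, hA, hL⟩ := hLB f
  obtain ⟨C4, hC4, h4⟩ := hRM f (c / 8) (by positivity)
  obtain ⟨k, hk, hkc⟩ : ∃ k : ℕ, 1 ≤ k ∧ (1 / 2 ^ k : ℝ) ≤ c / 8 := by
    obtain ⟨k, hk⟩ := exists_pow_lt_of_lt_one (show 0 < c / 8 by positivity)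
      (show (1 / 2 : ℝ) < 1 by norm_num)
    refine ⟨k + 1, by omega, ?_⟩
    rw [one_div, ← inv_pow]
    rw [one_div] at hk
    calc (2 : ℝ)⁻¹ ^ (k + 1) ≤ (2 : ℝ)⁻¹ ^ k := pow_le_pow_of_le_one (by norm_num) (by norm_num) (by omega)
      _ ≤ c / 8 := hk.le
  have hk0 : (0 : ℝ) < k := by exact_mod_cast hk
  obtain ⟨X0, hX0⟩ : ∃ X0 : ℝ, X0 = max 1 (max (C4 ^ (8 / c)) (2 ^ (16 * k / c))) := ⟨_, rfl⟩
  have hX01 : 1 ≤ X0 := hX0 ▸ le_max_left _ _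
  refine ⟨c / (16 * k), C2 * (1 + C3) ^ C2 + X0 + A * C2, by positivity, by positivity, ?_⟩
  intro F _ _ hF hNo X hX
  obtain ⟨C', hC'⟩ : ∃ C' : ℝ, C' = C2 * (1 + C3) ^ C2 + X0 + A * C2 := ⟨_, rfl⟩
  rw [← hC'] at hX
  have hp1 : 0 < C2 * (1 + C3) ^ C2 := by positivity
  have hp2 : 0 < A * C2 := by positivity
  have hC'0 : 0 < C' := by linarith
  obtain ⟨D, hD⟩ : ∃ D : ℝ, D = |(discr F : ℝ)| := ⟨_, rfl⟩
  have hD1 : 1 ≤ D := by
    rw [hD, ← Int.cast_abs]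
    exact_mod_cast Int.one_le_abs (NumberField.discr_ne_zero F)
  rw [← hD] at hX
  have hDC : 1 ≤ D ^ C' := Real.one_le_rpow hD1 hC'0.le
  have hXX0 : X0 ≤ X := by
    have : C' * 1 ≤ C' * D ^ C' := mul_le_mul_of_nonneg_left hDC hC'0.le
    linarith
  have hX1 : 1 ≤ X := hX01.trans hXX0
  have hXpos : 0 < X := by linarith
  have hX2 : C4 ≤ X ^ (c / 8) := by
    have : C4 ^ (8 / c) ≤ X := ((le_max_left _ _).trans (le_max_right _ _)).trans (hX0 ▸ hXX0)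
    calc C4 = (C4 ^ (8 / c)) ^ (c / 8) := by
          rw [← Real.rpow_mul hC4.le]
          have : 8 / c * (c / 8) = 1 := by field_simp
          rw [this, Real.rpow_one]
      _ ≤ X ^ (c / 8) := Real.rpow_le_rpow (by positivity) this (by positivity)
  have hX3 : 2 ≤ X ^ (c / (16 * k)) := by
    have : (2 : ℝ) ^ (16 * k / c) ≤ X := ((le_max_right _ _).trans (le_max_right _ _)).trans (hX0 ▸ hXX0)
    calc (2 : ℝ) = ((2 : ℝ) ^ (16 * k / c)) ^ (c / (16 * k)) := by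
          rw [← Real.rpow_mul (by norm_num)]
          have : 16 * k / c * (c / (16 * k)) = 1 := by field_simp
          rw [this, Real.rpow_one]
      _ ≤ X ^ (c / (16 * k)) := Real.rpow_le_rpow (by positivity) this (by positivity)
  obtain ⟨ψ, hψ, L, hLd, hLs, hLb⟩ := hL F hF hNo
  obtain ⟨R, hR⟩ : ∃ R : ℝ, R = max 1 (C3 * D ^ A) := ⟨_, rfl⟩
  have hDA : 1 ≤ D ^ A := Real.one_le_rpow hD1 hA.le
  have hR1 : 1 ≤ R := hR ▸ le_max_left _ _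
  have hR2 : R ≤ (1 + C3) * D ^ A := by
    rw [hR]
    apply max_le
    · nlinarith
    · nlinarith
  have hRX : C2 * R ^ C2 ≤ X := by
    have h5 : R ^ C2 ≤ (1 + C3) ^ C2 * D ^ (A * C2) := by
      calc R ^ C2 ≤ ((1 + C3) * D ^ A) ^ C2 := Real.rpow_le_rpow (by linarith) hR2 hC2.le
        _ = (1 + C3) ^ C2 * D ^ (A * C2) := by
          rw [Real.mul_rpow (by positivity) (by positivity), ← Real.rpow_mul (by positivity)]
    have h6 : D ^ (A * C2) ≤ D ^ C' := Real.rpow_le_rpow_of_exponent_le hD1 (by linarith)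
    calc C2 * R ^ C2 ≤ C2 * ((1 + C3) ^ C2 * D ^ (A * C2)) := mul_le_mul_of_nonneg_left h5 hC2.le
      _ = (C2 * (1 + C3) ^ C2) * D ^ (A * C2) := by ring
      _ ≤ (C2 * (1 + C3) ^ C2) * D ^ C' := mul_le_mul_of_nonneg_left h6 hp1.le
      _ ≤ C' * D ^ C' := mul_le_mul_of_nonneg_right (by linarith) (by positivity)
      _ ≤ X := hX
  have hrr : ∀ m : ℕ, 1 ≤ m → rr F m ≤ C1 * (m : ℝ) ^ (1 / 32 : ℝ) := fun m hm => h1 F hF m hm
  have hS := hT R (aa F ψ) (ee F) L hR1 hLd (fun s hs => hasSum_aa F ψ s _ (hLs s hs))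
    (fun s hs => (hLb s hs).trans (by rw [hR, ← hD]; exact le_max_right _ _))
    (aa_zero F ψ) (ee_zero F)
    (fun m => by
      rcases Nat.eq_zero_or_pos m with rfl | hm
      · rw [aa_zero, abs_zero]
        positivity
      · have hm1 : (1 : ℝ) ≤ m := by exact_mod_cast hm
        refine (abs_aa_le F hψ m).trans ((hrr m hm).trans ?_)
        have h5 : (m : ℝ) ^ (1 / 32 : ℝ) ≤ (m : ℝ) ^ (1 / 4 : ℝ) :=
          Real.rpow_le_rpow_of_exponent_le hm1 (by norm_num)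
        exact mul_le_mul (by nlinarith [mul_pos hC5 (pow_pos hC1 2)]) h5 (by positivity) (by positivity))
    (fun m => by
      refine ⟨ee_nonneg F m, ?_⟩
      rcases Nat.eq_zero_or_pos m with rfl | hm
      · rw [ee_zero]
        positivity
      · have hm1 : (1 : ℝ) ≤ m := by exact_mod_cast hm
        refine (ee_le F hC1 (by norm_num : (0:ℝ) < 1 / 32) hrr hd m hm).trans ?_
        have h5 : (m : ℝ) ^ (2 * (1 / 32) : ℝ) ≤ (m : ℝ) ^ (1 / 4 : ℝ) :=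
          Real.rpow_le_rpow_of_exponent_le hm1 (by norm_num)
        exact mul_le_mul (by linarith) h5 (by positivity) (by positivity))
    (fun m hm => (rr_nonneg F m).trans (hconv F ψ hψ m hm))
    (fun k hk => (rr_pow F hF hk).trans (hconv F ψ hψ (k ^ f) (Nat.one_le_pow _ _ hk)))
    X hRX
  exact count F hc hC4 hk hkc (fun m hm => h4 F hF m hm) hX1 hX2 hX3 hS

end Pool.Agent.K1H26.GE
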