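import Pool.Agent.K1H79.GE.StmB
import Pool.Agent.K1H26.GE.PrmCore

/-! # `t_PRIMof : S_PRIMof` (piece W7 of helper79's project GE) -/

set_option autoImplicit false

namespace Pool.Agent.K1H26.GE

theorem t_PRIMof : Pool.Agent.K1H79.GE.S_PRIMof := fun h1 h2 h3 h4 => core h1 h2 h3 h4

end Pool.Agent.K1H26.GE
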